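import Mathlib

/-!
# The Arens-Michael envelope of an algebra and of a Hopf algebra
-/

set_option autoImplicit false

open scoped TensorProduct Topology

namespace Pool.Agent.Q193.UH

/-- The algebra `A`, to be equipped with the topology of all submultiplicative seminorms. -/
def AM (A : Type) : Type := A

/-- the submultiplicative seminorms on `A` -/
abbrev SubSem (A : Type) [Ring A] [Algebra ℂ A] : Type :=
  {p : Seminorm ℂ A // ∀ a b : A, p (a * b) ≤ p a * p b}

section

variable (A : Type) [Ring A] [Algebra ℂ A]

instance : Ring (AM A) := inferInstanceAs (Ring A)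

instance : Algebra ℂ (AM A) := inferInstanceAs (Algebra ℂ A)

variable {A}

/-- the seminormed ring given by a submultiplicative seminorm -/
@[reducible]
def SubSem.ring (p : SubSem A) : SeminormedRing A :=
  { p.1.toAddGroupSeminorm.toSeminormedAddCommGroup, (inferInstance : Ring A) with
    norm_mul_le := p.2 }

/-- the uniform structure given by one submultiplicative seminorm -/
@[reducible]
def SubSem.unif (p : SubSem A) : UniformSpace A :=
  p.ring.toPseudoMetricSpace.toUniformSpace

variable (A)

/-- the uniform structure given by all submultiplicative seminorms -/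
instance : UniformSpace (AM A) := ⨅ p : SubSem A, p.unif

instance : IsUniformAddGroup (AM A) :=
  isUniformAddGroup_iInf fun p : SubSem A =>
    letI := p.ring
    (inferInstance : @IsUniformAddGroup A p.unif _)

instance : IsTopologicalRing (AM A) := by
  have h : ∀ p : SubSem A, @IsTopologicalRing A p.unif.toTopologicalSpace _ := by
    intro p
    let _ := p.ring
    exact (inferInstance : IsTopologicalRing A)
  have h2 : (inferInstance : TopologicalSpace (AM A)) =
      ⨅ p : SubSem A, p.unif.toTopologicalSpace := UniformSpace.toTopologicalSpace_iInf
  have h3 : @ContinuousMul A (⨅ p : SubSem A, p.unif.toTopologicalSpace) _ :=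
    continuousMul_iInf fun p => (h p).toContinuousMul
  have h4 : @ContinuousMul (AM A) inferInstance _ := by
    rw [h2]; exact h3
  exact { toContinuousAdd := inferInstance
          toContinuousMul := h4
          toContinuousNeg := inferInstance }

/-- The Arens-Michael envelope: the completion of `A` for the family of all submultiplicative
seminorms. It is a complete Hausdorff topological ring. -/
abbrev Env : Type := UniformSpace.Completion (AM A)

variable {A}

/-- the canonical map to the Arens-Michael envelope -/
noncomputable def env (a : A) : Env A := ((show AM A from a : AM A) : UniformSpace.Completion (AM A))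

end

section maps

variable {A B : Type} [Ring A] [Algebra ℂ A] [Ring B] [Algebra ℂ B]

/-- a map of algebras as a map of the topological rings -/
def lin (f : A → B) : AM A → AM B := f

/-- a linear map pulling submultiplicative seminorms back to submultiplicative seminorms is
uniformly continuous -/
theorem unifCont_of (f : A →ₗ[ℂ] B)
    (h : ∀ p : SubSem B, ∀ a b : A, p.1 (f (a * b)) ≤ p.1 (f a) * p.1 (f b)) :
    UniformContinuous (lin f) := by
  apply uniformContinuous_iInf_rng.mpr
  intro p
  let q : SubSem A := ⟨p.1.comp f, h p⟩
  have h1 : @UniformContinuous A B q.unif p.unif f := by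
    let _ := q.ring
    let _ := p.ring
    apply Isometry.uniformContinuous
    apply Isometry.of_dist_eq
    intro x y
    rw [dist_eq_norm, dist_eq_norm, ← map_sub]
    rfl
  exact uniformContinuous_iInf_dom (i := q) h1

/-- the ring map between the topological rings given by an algebra map -/
def amMap (f : A →ₐ[ℂ] B) : AM A →+* AM B := (f : A →+* B)

theorem amMap_unif (f : A →ₐ[ℂ] B) : UniformContinuous (amMap f) :=
  unifCont_of f.toLinearMap fun p a b => by
    change p.1 (f (a * b)) ≤ p.1 (f a) * p.1 (f b)
    rw [map_mul]
    exact p.2 _ _

/-- the map between envelopes given by an algebra map -/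
noncomputable def envMap (f : A →ₐ[ℂ] B) : Env A →+* Env B :=
  UniformSpace.Completion.mapRingHom (amMap f) (amMap_unif f).continuous

lemma envMap_env (f : A →ₐ[ℂ] B) (a : A) : envMap f (env a) = env (f a) :=
  UniformSpace.Completion.mapRingHom_coe _ _

lemma envMap_continuous (f : A →ₐ[ℂ] B) : Continuous (envMap f) :=
  UniformSpace.Completion.continuous_map

/-- continuous maps out of the envelope are determined by their values on `A` -/
lemma env_ext {Y : Type} [TopologicalSpace Y] [T2Space Y] {f g : Env A → Y} (hf : Continuous f)
    (hg : Continuous g) (h : ∀ a : A, f (env a) = g (env a)) : f = g := by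
  funext z
  induction z using UniformSpace.Completion.induction_on with
  | hp => exact isClosed_eq hf hg
  | ih a => exact h a

lemma env_eq_of {a b : A} (h : ∀ p : SubSem A, p.1 (a - b) = 0) : env a = env b := by
  have h1 : ∀ p : SubSem A, @nhds A p.unif.toTopologicalSpace a =
      @nhds A p.unif.toTopologicalSpace b := by
    intro p
    let _ := p.ring
    have : Inseparable a b := by
      rw [Metric.inseparable_iff, dist_eq_norm]
      exact h p
    exact inseparable_def.mp this
  have h2 : (inferInstance : TopologicalSpace (AM A)) =
      ⨅ p : SubSem A, p.unif.toTopologicalSpace := UniformSpace.toTopologicalSpace_iInf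
  have h5 : @nhds A (⨅ p : SubSem A, p.unif.toTopologicalSpace) a =
      @nhds A (⨅ p : SubSem A, p.unif.toTopologicalSpace) b := by
    rw [nhds_iInf, nhds_iInf]
    exact iInf_congr h1
  have h3 : @nhds (AM A) inferInstance a = @nhds (AM A) inferInstance b := by
    rw [h2]
    exact h5
  have h4 : @Inseparable (AM A) inferInstance a b := h3
  exact (h4.map (UniformSpace.Completion.continuous_coe (AM A))).eq

lemma envMap_comp {C : Type} [Ring C] [Algebra ℂ C] (f : A →ₐ[ℂ] B) (g : B →ₐ[ℂ] C) (z : Env A) :
    envMap g (envMap f z) = envMap (g.comp f) z := by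
  have := env_ext (f := fun z => envMap g (envMap f z)) (g := envMap (g.comp f))
    ((envMap_continuous g).comp (envMap_continuous f)) (envMap_continuous _) (fun a => by
      simp only [envMap_env]; rfl)
  exact congrFun this z

/-- the envelope map of an algebra map which is the identity modulo the common kernel of all
submultiplicative seminorms -/
lemma envMap_eq_id {f : A →ₐ[ℂ] A} (h : ∀ p : SubSem A, ∀ a, p.1 (f a - a) = 0) (z : Env A) :
    envMap f z = z := by
  have := env_ext (f := envMap f) (g := id) (envMap_continuous f) continuous_id (fun a => by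
    rw [envMap_env]; exact env_eq_of fun p => h p a)
  exact congrFun this z

end maps

section hopf

variable (H : Type) [Ring H] [HopfAlgebra ℂ H]

/-- the Arens-Michael envelope of a Hopf algebra -/
def EnvH : Type := Env H

noncomputable instance : Ring (EnvH H) := inferInstanceAs (Ring (Env H))

noncomputable instance : TopologicalSpace (EnvH H) := inferInstanceAs (TopologicalSpace (Env H))

/-- The Arens-Michael envelope of the tensor square of a Hopf algebra; it is the completed
projective tensor square of the envelope. -/
def Env2 : Type := Env (H ⊗[ℂ] H)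

noncomputable instance : Ring (Env2 H) := inferInstanceAs (Ring (Env (H ⊗[ℂ] H)))

noncomputable instance : TopologicalSpace (Env2 H) :=
  inferInstanceAs (TopologicalSpace (Env (H ⊗[ℂ] H)))

/-- the canonical map to the envelope -/
noncomputable def envH (a : H) : EnvH H := env a

/-- the canonical map of the tensor square to its envelope -/
noncomputable def env2 (t : H ⊗[ℂ] H) : Env2 H := env t

/-- The comultiplication of the envelope of a Hopf algebra, with values in the envelope of
`H ⊗ H`, which is the completed projective tensor square of the envelope of `H`. -/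
noncomputable def comulHat : EnvH H →+* Env2 H := envMap (Bialgebra.comulAlgHom ℂ H)

/-- the counit as a map on the topological ring -/
def counitAM : AM H →+* ℂ := (Bialgebra.counitAlgHom ℂ H : H →+* ℂ)

theorem counitAM_cont : Continuous (counitAM H) := by
  let p : SubSem H := ⟨(normSeminorm ℂ ℂ).comp (Bialgebra.counitAlgHom ℂ H).toLinearMap, by
    intro a b
    change ‖Bialgebra.counitAlgHom ℂ H (a * b)‖ ≤ _
    rw [map_mul, norm_mul]
    exact le_refl _⟩
  have h1 : @UniformContinuous H ℂ p.unif _ (Bialgebra.counitAlgHom ℂ H) := by
    let _ := p.ring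
    apply Isometry.uniformContinuous
    apply Isometry.of_dist_eq
    intro x y
    rw [dist_eq_norm, dist_eq_norm, ← map_sub]
    rfl
  have h2 : UniformContinuous (counitAM H) := uniformContinuous_iInf_dom (i := p) h1
  exact h2.continuous

/-- the counit of the envelope -/
noncomputable def counitHat : EnvH H →+* ℂ :=
  UniformSpace.Completion.extensionHom (counitAM H) (counitAM_cont H)

lemma counitHat_env (a : H) : counitHat H (envH H a) = Coalgebra.counit (R := ℂ) a :=
  UniformSpace.Completion.extensionHom_coe _ _ _

lemma counitHat_cont : Continuous (counitHat H) :=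
  UniformSpace.Completion.continuous_extension

/-- the antipode as a map on the topological ring -/
noncomputable def antiAM : AM H → AM H := lin (HopfAlgebra.antipode ℂ (A := H))

theorem antipode_unif : UniformContinuous (antiAM H) := by
  apply unifCont_of (HopfAlgebra.antipode ℂ (A := H))
  intro p a b
  rw [HopfAlgebra.antipode_mul_antidistrib]
  refine (p.2 _ _).trans ?_
  rw [mul_comm]

/-- the antipode of the envelope: the continuous extension of the antipode -/
noncomputable def antipodeHat : EnvH H → EnvH H :=
  UniformSpace.Completion.map (antiAM H)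

lemma antipodeHat_env (a : H) :
    antipodeHat H (envH H a) = envH H (HopfAlgebra.antipode ℂ (A := H) a) :=
  UniformSpace.Completion.map_coe (antipode_unif H) a

lemma antipodeHat_cont : Continuous (antipodeHat H) := UniformSpace.Completion.continuous_map

/-- the embedding of the envelope as first tensor factor, `a ↦ a ⊗ 1` -/
noncomputable def inl : EnvH H →+* Env2 H :=
  envMap (Algebra.TensorProduct.includeLeft : H →ₐ[ℂ] H ⊗[ℂ] H)

/-- the embedding of the envelope as second tensor factor, `b ↦ 1 ⊗ b` -/
noncomputable def inr : EnvH H →+* Env2 H :=
  envMap (Algebra.TensorProduct.includeRight : H →ₐ[ℂ] H ⊗[ℂ] H)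

variable {H₁ H₂ : Type} [Ring H₁] [HopfAlgebra ℂ H₁] [Ring H₂] [HopfAlgebra ℂ H₂]

/-- `sq` is the completed tensor square of `φ`: the continuous ring homomorphism with
`sq (a ⊗ b) = (φ a ⊗ 1) (1 ⊗ φ b)`. -/
def IsTensorSquare (φ : EnvH H₁ → EnvH H₂) (sq : Env2 H₁ →+* Env2 H₂) : Prop :=
  Continuous sq ∧
    ∀ a b : H₁, sq (env2 H₁ (a ⊗ₜ[ℂ] b)) = inl H₂ (φ (envH H₁ a)) * inr H₂ (φ (envH H₁ b))

/-- `φ` commutes with the comultiplications. -/
def CommutesComul (φ : EnvH H₁ → EnvH H₂) : Prop :=
  ∃ sq : Env2 H₁ →+* Env2 H₂, IsTensorSquare φ sq ∧
    ∀ z, comulHat H₂ (φ z) = sq (comulHat H₁ z)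

/-- `φ` is an isomorphism of the Arens-Michael envelopes as Hopf algebras in the topological sense:
a topological isomorphism of complex algebras commuting with the comultiplications, the counits
and the antipodes. -/
def IsHopfIso (φ : EnvH H₁ ≃+* EnvH H₂) : Prop :=
  Continuous φ ∧ Continuous φ.symm ∧
    (∀ c : ℂ, φ (envH H₁ (algebraMap ℂ H₁ c)) = envH H₂ (algebraMap ℂ H₂ c)) ∧
    CommutesComul φ ∧ (∀ z, counitHat H₂ (φ z) = counitHat H₁ z) ∧
    ∀ z, φ (antipodeHat H₁ z) = antipodeHat H₂ (φ z)

end hopf

end Pool.Agent.Q193.UH
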