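import Pool.Agent.Q193.UH.Bnd
import Pool.Agent.Q193.UH.Env

/-!
# The Arens-Michael envelope of the affine Hopf algebra with non-injective antipode

A submultiplicative seminorm on the Hopf algebra that does not vanish on the element killed by the
antipode.
-/

set_option autoImplicit false

namespace Pool.Agent.Q193.UH

open Pool.Agent.TH12.Hopf MonoidAlgebra

section rep

abbrev FF : Type := FA ℂ (ℕ × Fin 12 × Fin 12)

lemma Nh_eq_of_rho {f g : FF} (h : (Dv ℂ).sys.rho f = (Dv ℂ).sys.rho g) :
    (Dv ℂ).sys.Nh f = (Dv ℂ).sys.Nh g := by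
  by_contra hne
  have h1 : (Dv ℂ).sys.Nh (f - g) ≠ 0 := by
    rw [map_sub]
    exact sub_ne_zero.mpr hne
  apply RS.rho_ne_zero (Dv ℂ).sys (Dv ℂ).res h1
  rw [map_sub, h, sub_self]

lemma exists_rep (h : Hv ℂ) : ∃ f : FF, repH h = (Dv ℂ).sys.rho f := by
  induction h using indH with
  | h0 c =>
    refine ⟨algebraMap ℂ _ c, ?_⟩
    rw [AlgHom.commutes, AlgHom.commutes]
  | hg i o a =>
    refine ⟨Dat.X ℂ i o a, ?_⟩
    rw [repH, liftH_G]
  | hm a b ha hb =>
    obtain ⟨f, hf⟩ := ha
    obtain ⟨g, hg⟩ := hb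
    exact ⟨f * g, by rw [map_mul, hf, hg, map_mul]⟩
  | ha a b ha hb =>
    obtain ⟨f, hf⟩ := ha
    obtain ⟨g, hg⟩ := hb
    exact ⟨f + g, by rw [map_add, hf, hg, map_add]⟩

/-- the norm of the normal form -/
noncomputable def pHfun (h : Hv ℂ) : ℝ := nm wv_pos ((Dv ℂ).sys.Nh (exists_rep h).choose)

lemma pHfun_eq {h : Hv ℂ} {f : FF} (hf : repH h = (Dv ℂ).sys.rho f) :
    pHfun h = nm wv_pos ((Dv ℂ).sys.Nh f) := by
  unfold pHfun
  rw [Nh_eq_of_rho ((exists_rep h).choose_spec.symm.trans hf)]

/-- the seminorm on the Hopf algebra -/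
noncomputable def pH : Seminorm ℂ (Hv ℂ) :=
  Seminorm.of pHfun
    (by
      intro a b
      obtain ⟨f, hf⟩ := exists_rep a
      obtain ⟨g, hg⟩ := exists_rep b
      rw [pHfun_eq hf, pHfun_eq hg, pHfun_eq (f := f + g) (by rw [map_add, hf, hg, map_add]),
        map_add]
      exact map_add_le_add _ _ _)
    (by
      intro c a
      obtain ⟨f, hf⟩ := exists_rep a
      rw [pHfun_eq hf, pHfun_eq (f := c • f) (by rw [map_smul, hf, map_smul]), map_smul,
        map_smul_eq_mul])

lemma pH_apply (h : Hv ℂ) : pH h = pHfun h := rfl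

lemma pH_mul (a b : Hv ℂ) : pH (a * b) ≤ pH a * pH b := by
  obtain ⟨f, hf⟩ := exists_rep a
  obtain ⟨g, hg⟩ := exists_rep b
  rw [pH_apply, pH_apply, pH_apply, pHfun_eq hf, pHfun_eq hg,
    pHfun_eq (f := f * g) (by rw [map_mul, hf, hg, map_mul])]
  exact nm_Nh_mul wv_pos (Dv ℂ).sys rule_le (Dv ℂ).res f g

lemma pH_cv : pH (cv (k := ℂ)) ≠ 0 := by
  rw [pH_apply, pHfun_eq repH_cv, Nh_cf]
  exact (nm_pos wv_pos cf_ne).ne'

end rep

section sep

variable {A : Type} [Ring A] [Algebra ℂ A]

/-- a submultiplicative seminorm is continuous on the topological ring -/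
lemma sub_continuous (p : SubSem A) : Continuous (fun a : AM A => p.1 a) := by
  have h1 : @UniformContinuous A ℝ p.unif _ p.1 := by
    let _ := p.ring
    exact uniformContinuous_norm
  have h2 : UniformContinuous (fun a : AM A => p.1 a) := uniformContinuous_iInf_dom (i := p) h1
  exact h2.continuous

lemma sub_unifCont (p : SubSem A) : UniformContinuous (fun a : AM A => p.1 a) := by
  have h1 : @UniformContinuous A ℝ p.unif _ p.1 := by
    let _ := p.ring
    exact uniformContinuous_norm
  exact uniformContinuous_iInf_dom (i := p) h1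

/-- elements on which some submultiplicative seminorm does not vanish survive in the envelope -/
lemma env_ne_zero (p : SubSem A) {a : A} (h : p.1 a ≠ 0) : env a ≠ 0 := by
  intro h0
  apply h
  have h1 : UniformSpace.Completion.extension (fun a : AM A => p.1 a) (env a) = p.1 a :=
    UniformSpace.Completion.extension_coe (sub_unifCont p) a
  have h2 : UniformSpace.Completion.extension (fun a : AM A => p.1 a) (env (0 : A)) = p.1 0 :=
    UniformSpace.Completion.extension_coe (sub_unifCont p) 0
  have h3 : env (0 : A) = 0 := rfl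
  rw [← h1, h0, ← h3, h2, map_zero]

end sep

end Pool.Agent.Q193.UH
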