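import Pool.Agent.Q193.UH.Nrm

/-!
# The weights for the affine Hopf algebra with non-injective antipode
-/

set_option autoImplicit false

namespace Pool.Agent.Q193.UH

open Pool.Agent.TH12.Hopf MonoidAlgebra

section gen

variable {M ι : Type} [AddCommGroup M] [Module ℂ M] [Fintype ι] [DecidableEq ι]

omit [DecidableEq ι] in
lemma semi_sum (p : Seminorm ℂ M) (f : ι → M) (c : ℝ) (h : ∀ i, p (f i) ≤ c) :
    p (∑ i, f i) ≤ Fintype.card ι * c := by
  refine (Finset.le_sum_of_subadditive p (map_zero p).le (map_add_le_add p) _ _).trans ?_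
  refine (Finset.sum_le_card_nsmul _ _ c fun i _ => h i).trans ?_
  rw [nsmul_eq_mul, Finset.card_univ]

lemma semi_sub_sum (p : Seminorm ℂ M) (f : ι → M) (i0 : ι) (c : ℝ) (hc : 0 ≤ c)
    (h : ∀ i, i ≠ i0 → p (f i) ≤ c) : p (f i0 - ∑ i, f i) ≤ Fintype.card ι * c := by
  have e : f i0 - ∑ i, f i = - ∑ i, (if i = i0 then 0 else f i) := by
    rw [← Finset.add_sum_erase _ _ (Finset.mem_univ i0),
      ← Finset.add_sum_erase _ (fun i => if i = i0 then 0 else f i) (Finset.mem_univ i0)]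
    simp only [if_true, zero_add]
    rw [sub_add_eq_sub_sub, sub_self, zero_sub]
    congr 1
    refine Finset.sum_congr rfl fun i hi => ?_
    rw [if_neg (Finset.ne_of_mem_erase hi)]
  rw [e, map_neg_eq_map]
  apply semi_sum
  intro i
  split_ifs with hi
  · rw [map_zero]; exact hc
  · exact h i hi

end gen

lemma nu_two {L : Type} (ν : L → ℝ) (a b : L) : nu ν [a, b] = ν a * ν b := by simp [nu]

lemma nu_one {L : Type} (ν : L → ℝ) (a : L) : nu ν [a] = ν a := by simp [nu]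

/-- the base of the weights -/
noncomputable def BB : ℝ := 24 * 300 ^ 1100

/-- the weights of the letters -/
noncomputable def wv (l : ℕ × Fin 12 × Fin 12) : ℝ := BB ^ (l.1 + 2) * 300 ^ ((Dv ℂ).wt l)

lemma BB_one : (1 : ℝ) ≤ BB := by
  unfold BB
  have : (1 : ℝ) ≤ 300 ^ 1100 := one_le_pow₀ (by norm_num)
  generalize (300 : ℝ) ^ 1100 = z at this ⊢
  linarith

lemma wv_pos (l : ℕ × Fin 12 × Fin 12) : 0 < wv l := by
  unfold wv
  have := BB_one
  positivity

lemma Uv_le (i : ℕ) (c : Fin 12) : Uv i c ≤ 30 * i + 499 := by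
  obtain ⟨hA, hB⟩ := ABbd c
  unfold Uv
  split_ifs with h1 h2 h3
  · have := Nat.mul_le_mul_right (i / 2) hA
    omega
  · omega
  · omega
  · omega

lemma wt_le (l : ℕ × Fin 12 × Fin 12) : (Dv ℂ).wt l ≤ 60 * l.1 + 1028 := by
  have h1 := Uv_le l.1 l.2.1
  have h2 := Uv_le (l.1 + 1) l.2.2
  have : (Dv ℂ).wt l = Uv l.1 l.2.1 + Uv (l.1 + 1) l.2.2 := rfl
  omega

lemma one_le_wv (l : ℕ × Fin 12 × Fin 12) : 2 ≤ wv l := by
  unfold wv
  have h1 := BB_one
  have h2 : (1 : ℝ) ≤ 300 ^ ((Dv ℂ).wt l) := one_le_pow₀ (by norm_num)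
  have h3 : (2 : ℝ) ≤ BB := by
    unfold BB
    have : (1 : ℝ) ≤ 300 ^ 1100 := one_le_pow₀ (by norm_num)
    generalize (300 : ℝ) ^ 1100 = z at this ⊢
    linarith
  have h4 : BB ≤ BB ^ (l.1 + 2) := le_self_pow₀ h1 (by omega)
  nlinarith

/-- words of length two with the same levels and smaller weight -/
lemma two_le (x y x' y' : ℕ × Fin 12 × Fin 12) (h1 : x'.1 = x.1) (h2 : y'.1 = y.1)
    (h : (Dv ℂ).wt x' + (Dv ℂ).wt y' < (Dv ℂ).wt x + (Dv ℂ).wt y) :
    wv x' * wv y' ≤ wv x * wv y / 300 := by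
  unfold wv
  rw [h1, h2]
  have h3 : (300 : ℝ) ^ ((Dv ℂ).wt x' + (Dv ℂ).wt y') * 300 ≤
      300 ^ ((Dv ℂ).wt x + (Dv ℂ).wt y) := by
    rw [← pow_succ]
    exact pow_le_pow_right₀ (by norm_num) h
  rw [le_div_iff₀ (by norm_num)]
  have h4 : (0 : ℝ) < BB ^ (x.1 + 2) * BB ^ (y.1 + 2) := by
    have := BB_one
    positivity
  calc BB ^ (x.1 + 2) * 300 ^ (Dv ℂ).wt x' * (BB ^ (y.1 + 2) * 300 ^ (Dv ℂ).wt y') * 300
      = BB ^ (x.1 + 2) * BB ^ (y.1 + 2) *
        (300 ^ ((Dv ℂ).wt x' + (Dv ℂ).wt y') * 300) := by rw [pow_add 300]; ring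
    _ ≤ BB ^ (x.1 + 2) * BB ^ (y.1 + 2) * 300 ^ ((Dv ℂ).wt x + (Dv ℂ).wt y) := by gcongr
    _ = _ := by rw [pow_add 300]; ring

/-- single letters of moderate level -/
lemma one_le (x y z : ℕ × Fin 12 × Fin 12) (d : ℕ) (hd : z.1 ≤ d) (hd1 : 1 ≤ d)
    (h : z.1 + 2 + d ≤ x.1 + 2 + (y.1 + 2)) :
    wv z ≤ wv x * wv y / 24 := by
  rw [le_div_iff₀ (by norm_num)]
  have hB := BB_one
  have h1 : (300 : ℝ) ^ (Dv ℂ).wt z * 24 ≤ BB ^ d := by
    have h2 : (300 : ℝ) ^ (Dv ℂ).wt z ≤ 300 ^ (1100 * d) := by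
      apply pow_le_pow_right₀ (by norm_num)
      have := wt_le z
      omega
    have h3 : (24 : ℝ) ≤ 24 ^ d := le_self_pow₀ (by norm_num) (by omega)
    calc (300 : ℝ) ^ (Dv ℂ).wt z * 24 ≤ 300 ^ (1100 * d) * 24 ^ d := by gcongr
      _ = BB ^ d := by unfold BB; rw [mul_pow, ← pow_mul]; ring
  have h5 : BB ^ (z.1 + 2) * BB ^ d ≤ BB ^ (x.1 + 2) * BB ^ (y.1 + 2) := by
    rw [← pow_add, ← pow_add]
    exact pow_le_pow_right₀ hB h
  have h6 : (1 : ℝ) ≤ 300 ^ (Dv ℂ).wt x * 300 ^ (Dv ℂ).wt y := by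
    rw [← pow_add]
    exact one_le_pow₀ (by norm_num)
  unfold wv
  calc BB ^ (z.1 + 2) * 300 ^ (Dv ℂ).wt z * 24 = BB ^ (z.1 + 2) * (300 ^ (Dv ℂ).wt z * 24) := by
        ring
    _ ≤ BB ^ (z.1 + 2) * BB ^ d := by gcongr
    _ ≤ BB ^ (x.1 + 2) * BB ^ (y.1 + 2) := h5
    _ ≤ BB ^ (x.1 + 2) * BB ^ (y.1 + 2) * (300 ^ (Dv ℂ).wt x * 300 ^ (Dv ℂ).wt y) :=
        le_mul_of_one_le_right (by positivity) h6
    _ = _ := by ring

lemma Tv_norm (m : ℕ) (u v w : Fin 12) : ‖Tv ℂ m u v w‖ ≤ 1 := by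
  unfold Tv
  split_ifs <;> simp

lemma lev_mono3 (m : ℕ) : lev m ≤ lev (m + 1) ∧ lev (m + 1) ≤ lev (m + 2) ∧
    lev (m + 2) ≤ lev m + 2 ∧ (lev (m + 2) = lev m + 2 ∨ lev (m + 2) = lev m) := by
  unfold lev; omega

/-- the right sides of the rules are dominated by the left sides -/
theorem rule_le (r : (Dv ℂ).sys.R) :
    nm wv_pos (wd [(Dv ℂ).sys.x r, (Dv ℂ).sys.y r] - (Dv ℂ).sys.rel r) ≤
      wv ((Dv ℂ).sys.x r) * wv ((Dv ℂ).sys.y r) := by
  change nm wv_pos (wd [(Dv ℂ).lx r, (Dv ℂ).ly r] - (Dv ℂ).rl r) ≤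
    wv ((Dv ℂ).lx r) * wv ((Dv ℂ).ly r)
  set Y := wv ((Dv ℂ).lx r) * wv ((Dv ℂ).ly r) with hY
  have hY4 : 4 ≤ Y := by
    have h1 := one_le_wv ((Dv ℂ).lx r)
    have h2 := one_le_wv ((Dv ℂ).ly r)
    nlinarith
  have aux : ∀ a s t : FA ℂ (ℕ × Fin 12 × Fin 12), a - (s - t) = (a - s) + t := by
    intro a s t; abel
  have hdelta : ∀ a b : Fin 12, nm wv_pos (if a = b then (1 : FA ℂ (ℕ × Fin 12 × Fin 12)) else 0) ≤ 1 := by
    intro a b
    split_ifs
    · rw [← wd_nil, nm_wd]; simp [nu]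
    · rw [map_zero]; norm_num
  cases r with
  | ev i a b =>
    simp only [Dat.lx, Dat.ly, Dat.rl, evr, Dat.X_mul] at hY ⊢
    rw [aux]
    refine (map_add_le_add _ _ _).trans ?_
    have h1 := semi_sub_sum (nm wv_pos)
      (fun o => (wd [(i + 1, o, a), (i, o, b)] : FA ℂ (ℕ × Fin 12 × Fin 12))) ((Dv ℂ).p i)
      (Y / 300) (by positivity) (by
        intro o ho
        rw [nm_wd, nu_two, hY]
        refine two_le _ _ _ _ ?_ ?_ ?_ <;> [rfl; rfl; skip]
        have := (Dv ℂ).evdom i o ho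
        simp only [Dat.wt]
        omega)
    have h2 := hdelta a b
    rw [Fintype.card_fin] at h1
    push_cast at h1
    linarith
  | co i o o' =>
    simp only [Dat.lx, Dat.ly, Dat.rl, cor, Dat.X_mul] at hY ⊢
    rw [aux]
    refine (map_add_le_add _ _ _).trans ?_
    have h1 := semi_sub_sum (nm wv_pos)
      (fun a => (wd [(i, o, a), (i + 1, o', a)] : FA ℂ (ℕ × Fin 12 × Fin 12)))
      ((Dv ℂ).p (i + 1)) (Y / 300) (by positivity) (by
        intro a ha
        rw [nm_wd, nu_two, hY]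
        refine two_le _ _ _ _ ?_ ?_ ?_ <;> [rfl; rfl; skip]
        have := (Dv ℂ).evdom (i + 1) a ha
        simp only [Dat.wt]
        omega)
    have h2 := hdelta o o'
    rw [Fintype.card_fin] at h1
    push_cast at h1
    linarith
  | ef m c a b =>
    simp only [Dat.lx, Dat.ly, Dat.rl, Er, Dat.X_mul] at hY ⊢
    rw [aux]
    refine (map_add_le_add _ _ _).trans ?_
    have h1 := semi_sub_sum (nm wv_pos)
      (fun q : Fin 12 × Fin 12 => (Dv ℂ).T m q.1 q.2 c •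
          (wd [(lev (m + 2), q.1, a), (lev (m + 1), q.2, b)] : FA ℂ (ℕ × Fin 12 × Fin 12)))
      ((Dv ℂ).piv m c) (Y / 300) (by positivity) (by
        intro q hq
        rw [map_smul_eq_mul, nm_wd, nu_two]
        by_cases hT : (Dv ℂ).T m q.1 q.2 c = 0
        · rw [hT, norm_zero, zero_mul]; positivity
        · have h3 : wv (lev (m + 2), q.1, a) * wv (lev (m + 1), q.2, b) ≤ Y / 300 := by
            rw [hY]
            refine two_le _ _ _ _ ?_ ?_ ?_ <;> [rfl; rfl; skip]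
            have := (Dv ℂ).dom m c q hT hq
            simp only [Dat.wt]
            omega
          have h4 : ‖(Dv ℂ).T m q.1 q.2 c‖ ≤ 1 := Tv_norm _ _ _ _
          have h5 : 0 < wv (lev (m + 2), q.1, a) * wv (lev (m + 1), q.2, b) :=
            mul_pos (wv_pos _) (wv_pos _)
          nlinarith)
    have h2 := semi_sum (nm wv_pos) (fun l : Fin 12 => (Dv ℂ).T m a b l •
      Dat.X ℂ (lev m + 1) c l) (Y / 24) (by
        intro l
        have h4 : ‖(Dv ℂ).T m a b l‖ ≤ 1 := Tv_norm _ _ _ _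
        rw [map_smul_eq_mul, Dat.X, nm_wd, nu_one]
        have h3 : wv (lev m + 1, c, l) ≤ Y / 24 := by
          rw [hY]
          have := lev_mono3 m
          refine one_le _ _ _ (lev m + 1) ?_ (by omega) ?_ <;> [exact le_rfl; skip]
          simp only
          omega
        have h5 := wv_pos (lev m + 1, c, l)
        nlinarith)
    simp only [Dat.Tpiv, one_smul] at h1
    rw [Fintype.card_prod, Fintype.card_fin] at h1
    rw [Fintype.card_fin] at h2
    push_cast at h1 h2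
    linarith
  | jf m c o o' =>
    simp only [Dat.lx, Dat.ly, Dat.rl, Ir, Dat.X_mul] at hY ⊢
    rw [aux]
    refine (map_add_le_add _ _ _).trans ?_
    have h1 := semi_sub_sum (nm wv_pos)
      (fun q : Fin 12 × Fin 12 => (Dv ℂ).T (m + 2) q.1 q.2 c •
          (wd [(lev m + 1, o, q.2), (lev (m + 1) + 1, o', q.1)] : FA ℂ (ℕ × Fin 12 × Fin 12)))
      ((Dv ℂ).piv (m + 2) c) (Y / 300) (by positivity) (by
        intro q hq
        rw [map_smul_eq_mul, nm_wd, nu_two]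
        by_cases hT : (Dv ℂ).T (m + 2) q.1 q.2 c = 0
        · rw [hT, norm_zero, zero_mul]; positivity
        · have h3 : wv (lev m + 1, o, q.2) * wv (lev (m + 1) + 1, o', q.1) ≤ Y / 300 := by
            rw [hY]
            refine two_le _ _ _ _ ?_ ?_ ?_ <;> [rfl; rfl; skip]
            have h1 := (Dv ℂ).dom (m + 2) c q hT hq
            rw [show m + 2 + 2 = (m + 1) + 3 from rfl, show m + 2 + 1 = m + 3 from rfl, lev_add,
              lev_add] at h1
            simp only [Dat.wt]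
            have e1 : lev (m + 1) + 1 + 1 = lev (m + 1) + 2 := rfl
            have e2 : lev m + 1 + 1 = lev m + 2 := rfl
            rw [e1, e2]
            omega
          have h4 : ‖(Dv ℂ).T (m + 2) q.1 q.2 c‖ ≤ 1 := Tv_norm _ _ _ _
          have h5 : 0 < wv (lev m + 1, o, q.2) * wv (lev (m + 1) + 1, o', q.1) :=
            mul_pos (wv_pos _) (wv_pos _)
          nlinarith)
    have h2 := semi_sum (nm wv_pos) (fun l : Fin 12 => (Dv ℂ).T (m + 2) o' o l •
      Dat.X ℂ (lev (m + 2)) l c) (Y / 24) (by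
        intro l
        have h4 : ‖(Dv ℂ).T (m + 2) o' o l‖ ≤ 1 := Tv_norm _ _ _ _
        rw [map_smul_eq_mul, Dat.X, nm_wd, nu_one]
        have h3 : wv (lev (m + 2), l, c) ≤ Y / 24 := by
          rw [hY]
          obtain ⟨g1, g2, g3, g4⟩ := lev_mono3 m
          rcases g4 with g4 | g4
          · refine one_le _ _ _ (lev (m + 2)) ?_ (by omega) ?_ <;> [exact le_rfl; skip]
            simp only
            omega
          · refine one_le _ _ _ (lev (m + 2) + 1) ?_ (by omega) ?_ <;> [simp; skip]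
            simp only
            omega
        have h5 := wv_pos (lev (m + 2), l, c)
        nlinarith)
    simp only [Dat.Tpiv, one_smul] at h1
    rw [Fintype.card_prod, Fintype.card_fin] at h1
    rw [Fintype.card_fin] at h2
    push_cast at h1 h2
    linarith

end Pool.Agent.Q193.UH
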