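import Pool.Agent.Q112.HopfPres

/-!
# The Hopf algebra structure of a universal enveloping algebra
-/

set_option autoImplicit false

open scoped TensorProduct

namespace Pool.Agent.Q193.UH

attribute [local instance 100] LieRing.ofAssociativeRing

variable (R : Type) [CommRing R] (L : Type) [LieRing L] [LieAlgebra R L]

/-- the universal enveloping algebra -/
abbrev U : Type := UniversalEnvelopingAlgebra R L

/-- the generators -/
noncomputable def io (x : L) : U R L := UniversalEnvelopingAlgebra.ι R x

lemma io_add (x y : L) : io R L (x + y) = io R L x + io R L y := map_add _ x y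

lemma io_smul (r : R) (x : L) : io R L (r • x) = r • io R L x := map_smul _ r x

lemma io_lie (x y : L) : io R L ⁅x, y⁆ = io R L x * io R L y - io R L y * io R L x := by
  unfold io
  rw [LieHom.map_lie, LieRing.of_associative_ring_bracket]

theorem adjoin_io : Algebra.adjoin R (Set.range (io R L)) = ⊤ := by
  have h1 : Set.range (io R L) =
      (UniversalEnvelopingAlgebra.mkAlgHom R L) '' (Set.range (TensorAlgebra.ι R (M := L))) := by
    rw [← Set.range_comp]; rfl
  rw [h1, ← AlgHom.map_adjoin, TensorAlgebra.adjoin_range_ι, Algebra.map_top,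
    AlgHom.range_eq_top]
  intro x
  exact RingCon.mkₐ_surjective _ x

/-- comultiplication on the Lie algebra -/
noncomputable def comulLie : L →ₗ⁅R⁆ (U R L ⊗[R] U R L) where
  toFun x := io R L x ⊗ₜ 1 + 1 ⊗ₜ io R L x
  map_add' x y := by
    rw [io_add, TensorProduct.add_tmul, TensorProduct.tmul_add]; abel
  map_smul' r x := by
    rw [io_smul, RingHom.id_apply, smul_add, TensorProduct.smul_tmul', TensorProduct.tmul_smul]
  map_lie' := by
    intro x y
    rw [LieRing.of_associative_ring_bracket]
    simp only [mul_add, add_mul, Algebra.TensorProduct.tmul_mul_tmul, one_mul, mul_one, io_lie,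
      TensorProduct.sub_tmul, TensorProduct.tmul_sub]
    abel

/-- the comultiplication -/
noncomputable def comulU : U R L →ₐ[R] (U R L ⊗[R] U R L) :=
  UniversalEnvelopingAlgebra.lift R (comulLie R L)

lemma comulU_io (x : L) : comulU R L (io R L x) = io R L x ⊗ₜ 1 + 1 ⊗ₜ io R L x :=
  UniversalEnvelopingAlgebra.lift_ι_apply R (comulLie R L) x

/-- the counit -/
noncomputable def counitU : U R L →ₐ[R] R :=
  UniversalEnvelopingAlgebra.lift R (0 : L →ₗ⁅R⁆ R)

lemma counitU_io (x : L) : counitU R L (io R L x) = 0 :=
  UniversalEnvelopingAlgebra.lift_ι_apply R (0 : L →ₗ⁅R⁆ R) x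

/-- the antipode on the Lie algebra -/
noncomputable def antiLie : L →ₗ⁅R⁆ (U R L)ᵐᵒᵖ where
  toFun x := MulOpposite.op (-io R L x)
  map_add' x y := by
    rw [io_add, neg_add, MulOpposite.op_add]
  map_smul' r x := by
    rw [io_smul, RingHom.id_apply, ← smul_neg, MulOpposite.op_smul]
  map_lie' := by
    intro x y
    rw [LieRing.of_associative_ring_bracket, ← MulOpposite.op_mul, ← MulOpposite.op_mul,
      ← MulOpposite.op_sub, io_lie]
    congr 1
    noncomm_ring

/-- the antipode -/
noncomputable def antiU : U R L →ₐ[R] (U R L)ᵐᵒᵖ :=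
  UniversalEnvelopingAlgebra.lift R (antiLie R L)

lemma antiU_io (x : L) : antiU R L (io R L x) = MulOpposite.op (-io R L x) :=
  UniversalEnvelopingAlgebra.lift_ι_apply R (antiLie R L) x

/-- algebra maps out of the enveloping algebra are determined on the Lie algebra -/
lemma U_ext {A : Type*} [Semiring A] [Algebra R A] {f g : U R L →ₐ[R] A}
    (h : ∀ x, f (io R L x) = g (io R L x)) : f = g := by
  have h1 := AlgHom.ext_of_adjoin_eq_top (s := Set.range (io R L)) (adjoin_io R L)
    (φ₁ := f) (φ₂ := g)
  apply h1
  rintro _ ⟨x, rfl⟩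
  exact h x

noncomputable instance instBialgebra : Bialgebra R (U R L) :=
  Bialgebra.ofAlgHom (comulU R L) (counitU R L)
    (by
      apply U_ext
      intro x
      simp only [AlgHom.comp_apply, comulU_io, map_add]
      simp [comulU_io, TensorProduct.add_tmul, TensorProduct.tmul_add]
      rw [Algebra.TensorProduct.one_def, Algebra.TensorProduct.assoc_tmul]
      abel)
    (by
      apply U_ext
      intro x
      simp only [AlgHom.comp_apply, comulU_io, map_add]
      simp [counitU_io])
    (by
      apply U_ext
      intro x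
      simp only [AlgHom.comp_apply, comulU_io, map_add]
      simp [counitU_io])

lemma comul_eq (a : U R L) : Coalgebra.comul (R := R) a = comulU R L a := rfl

lemma counit_eq (a : U R L) : Coalgebra.counit (R := R) a = counitU R L a := rfl

noncomputable instance instHopf : HopfAlgebra R (U R L) :=
  Pool.Agent.Q112.HopfPres.hopfOfGen (antiU R L) (Set.range (io R L)) (adjoin_io R L)
    (by
      rintro _ ⟨x, rfl⟩
      rw [comul_eq, counit_eq, comulU_io, counitU_io]
      simp [antiU_io])
    (by
      rintro _ ⟨x, rfl⟩
      rw [comul_eq, counit_eq, comulU_io, counitU_io]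
      simp [antiU_io])

end Pool.Agent.Q193.UH
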