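import Pool.Agent.TH12.Hopf.Final

/-!
# A submultiplicative norm from a rewriting system

If the right sides of the rules are dominated by the left sides in a weighted `ℓ¹`-norm, then the
weighted `ℓ¹`-norm of the normal form is submultiplicative.
-/

set_option autoImplicit false

namespace Pool.Agent.Q193.UH

open Pool.Agent.TH12.Hopf MonoidAlgebra

section norm

variable {L : Type} (ν : L → ℝ)

/-- the weight of a word -/
noncomputable def nu (w : List L) : ℝ := (w.map ν).prod

lemma nu_append (u v : List L) : nu ν (u ++ v) = nu ν u * nu ν v := by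
  simp [nu]

variable {ν} (hν : ∀ l, 0 < ν l)

include hν in
lemma nu_pos (w : List L) : 0 < nu ν w := by
  induction w with
  | nil => simp [nu]
  | cons a w ih =>
    have : nu ν (a :: w) = ν a * nu ν w := by simp [nu]
    rw [this]
    exact mul_pos (hν a) ih

/-- the weighted `ℓ¹`-norm -/
noncomputable def nm (hν : ∀ l, 0 < ν l) : Seminorm ℂ (FA ℂ L) :=
  Seminorm.of (fun f => ∑' m : FreeMonoid L, ‖f.coeff m‖ * nu ν (FreeMonoid.toList m))
    (by
      intro f g
      have hs : ∀ h : FA ℂ L, Summable fun m : FreeMonoid L =>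
          ‖h.coeff m‖ * nu ν (FreeMonoid.toList m) := by
        intro h
        apply summable_of_hasFiniteSupport
        refine (h.coeff.support.finite_toSet).subset ?_
        intro m hm
        rw [Finset.mem_coe, Finsupp.mem_support_iff]
        intro h0
        apply hm
        simp [h0]
      rw [← (hs f).tsum_add (hs g)]
      refine (hs (f + g)).tsum_le_tsum (fun m => ?_) ((hs f).add (hs g))
      rw [← add_mul]
      have := nu_pos hν (FreeMonoid.toList m)
      gcongr
      rw [MonoidAlgebra.coeff_add, Finsupp.add_apply]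
      exact norm_add_le _ _)
    (by
      intro c f
      rw [← tsum_mul_left]
      congr 1
      funext m
      rw [MonoidAlgebra.coeff_smul, Finsupp.smul_apply, norm_smul, mul_assoc])

lemma nm_apply (f : FA ℂ L) :
    nm hν f = ∑' m : FreeMonoid L, ‖f.coeff m‖ * nu ν (FreeMonoid.toList m) := rfl

lemma nm_eq_sum (f : FA ℂ L) :
    nm hν f = ∑ m ∈ f.coeff.support, ‖f.coeff m‖ * nu ν (FreeMonoid.toList m) := by
  rw [nm_apply, tsum_eq_sum]
  intro m hm
  rw [Finsupp.notMem_support_iff.mp hm]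
  simp

lemma nm_wd (w : List L) : nm hν (wd w) = nu ν w := by
  classical
  rw [nm_apply, tsum_eq_single (FreeMonoid.ofList w)]
  · rw [wd, MonoidAlgebra.coeff_single, Finsupp.single_eq_same, norm_one, one_mul]
    rfl
  · intro m hm
    rw [wd, MonoidAlgebra.coeff_single, Finsupp.single_apply, if_neg (Ne.symm hm)]
    simp

lemma eq_sum (f : FA ℂ L) :
    f = ∑ m ∈ f.coeff.support, f.coeff m • (wd (FreeMonoid.toList m) : FA ℂ L) := by
  have h : f = f.coeff.sum fun m c => MonoidAlgebra.single m c := by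
    exact (MonoidAlgebra.sum_coeff_single f).symm
  conv_lhs => rw [h]
  refine Finset.sum_congr rfl fun m _ => ?_
  rw [wd, MonoidAlgebra.smul_single, smul_eq_mul, mul_one]
  rfl

lemma bound (p : Seminorm ℂ (FA ℂ L)) (C : ℝ) (f : FA ℂ L)
    (h : ∀ m ∈ f.coeff.support, p (wd (FreeMonoid.toList m)) ≤ C * nu ν (FreeMonoid.toList m)) :
    p f ≤ C * nm hν f := by
  conv_lhs => rw [eq_sum f]
  refine (Finset.le_sum_of_subadditive p (map_zero p).le (map_add_le_add p) _ _).trans ?_
  rw [nm_eq_sum, Finset.mul_sum]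
  refine Finset.sum_le_sum fun m hm => ?_
  rw [map_smul_eq_mul]
  calc ‖f.coeff m‖ * p (wd (FreeMonoid.toList m))
      ≤ ‖f.coeff m‖ * (C * nu ν (FreeMonoid.toList m)) := by gcongr; exact h m hm
    _ = C * (‖f.coeff m‖ * nu ν (FreeMonoid.toList m)) := by ring

lemma nm_wd_mul (w : List L) (g : FA ℂ L) : nm hν (wd w * g) ≤ nu ν w * nm hν g := by
  have := bound hν ((nm hν).comp (LinearMap.mulLeft ℂ (wd w))) (nu ν w) g (fun m _ => by
    rw [Seminorm.comp_apply, LinearMap.mulLeft_apply, wd_mul, nm_wd, nu_append])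
  exact this

lemma nm_mul (f g : FA ℂ L) : nm hν (f * g) ≤ nm hν f * nm hν g := by
  have := bound hν ((nm hν).comp (LinearMap.mulRight ℂ g)) (nm hν g) f (fun m _ => by
    rw [Seminorm.comp_apply, LinearMap.mulRight_apply]
    exact (nm_wd_mul hν _ _).trans (le_of_eq (mul_comm _ _)))
  rw [mul_comm] at this
  exact this

lemma nm_pos {f : FA ℂ L} (hf : f ≠ 0) : 0 < nm hν f := by
  rw [nm_eq_sum]
  have hne : f.coeff.support.Nonempty := by
    rw [Finsupp.support_nonempty_iff]
    intro h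
    apply hf
    rw [eq_sum f, h]
    simp
  apply Finset.sum_pos _ hne
  intro m hm
  have h1 : 0 < ‖f.coeff m‖ := norm_pos_iff.mpr (Finsupp.mem_support_iff.mp hm)
  exact mul_pos h1 (nu_pos hν _)

end norm

section system

variable {L : Type} {ν : L → ℝ} (hν : ∀ l, 0 < ν l) (S : RS ℂ L)

lemma red_lo {w : List L} {t : List L × S.R × List L} (h : S.Occ w t) :
    (wd t.1 * (wd [S.x t.2.1, S.y t.2.1] - S.rel t.2.1) * wd t.2.2 : FA ℂ L) ∈ Lo S.wt w := by
  have h1 := S.hrel t.2.1
  rw [h]
  generalize (wd [S.x t.2.1, S.y t.2.1] - S.rel t.2.1 : FA ℂ L) = f at h1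
  induction h1 using Submodule.span_induction with
  | mem x hx =>
    obtain ⟨w', h, rfl⟩ := hx
    rw [wd_mul, wd_mul]
    exact wd_mem_Lo (lt_ctx _ _ h)
  | zero => simp
  | add a b _ _ ha hb => rw [mul_add, add_mul]; exact Submodule.add_mem _ ha hb
  | smul c a _ ha => rw [mul_smul_comm, smul_mul_assoc]; exact Submodule.smul_mem _ _ ha

variable (hr : ∀ r, nm hν (wd [S.x r, S.y r] - S.rel r) ≤ ν (S.x r) * ν (S.y r))

include hr in
theorem N_le (w : List L) : nm hν (S.N w) ≤ nu ν w := by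
  induction w using (lt_wf S.wt).induction with
  | _ w ih =>
    by_cases hocc : ∃ t, S.Occ w t
    · obtain ⟨t, ht, hN⟩ := S.N_red hocc
      rw [hN]
      have hlo := red_lo S ht
      have hsupp := Lo_supp hlo
      have h1 : nm hν (wd t.1 * (wd [S.x t.2.1, S.y t.2.1] - S.rel t.2.1) * wd t.2.2) ≤
          nu ν w := by
        have e : nu ν w = nu ν t.1 * (ν (S.x t.2.1) * ν (S.y t.2.1)) * nu ν t.2.2 := by
          have hw : w = t.1 ++ [S.x t.2.1, S.y t.2.1] ++ t.2.2 := ht
          rw [hw, nu_append, nu_append]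
          simp [nu]
        rw [e]
        refine (nm_mul hν _ _).trans ?_
        rw [nm_wd]
        have h2 := nm_mul hν (wd t.1) (wd [S.x t.2.1, S.y t.2.1] - S.rel t.2.1)
        rw [nm_wd] at h2
        have h3 := hr t.2.1
        have p1 := nu_pos hν t.1
        have p2 := nu_pos hν t.2.2
        calc _ ≤ (nu ν t.1 * nm hν (wd [S.x t.2.1, S.y t.2.1] - S.rel t.2.1)) * nu ν t.2.2 := by
              gcongr
          _ ≤ _ := by gcongr
      generalize (wd t.1 * (wd [S.x t.2.1, S.y t.2.1] - S.rel t.2.1) * wd t.2.2 : FA ℂ L) = f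
        at hsupp h1
      have h2 := bound hν ((nm hν).comp S.Nh) 1 f (fun m hm => by
        rw [Seminorm.comp_apply, S.Nh_wd, one_mul]
        exact ih _ (hsupp m (Finsupp.mem_support_iff.mp hm)))
      rw [Seminorm.comp_apply, one_mul] at h2
      exact h2.trans h1
    · rw [S.N_irr hocc, nm_wd]

include hr in
theorem Nh_le (f : FA ℂ L) : nm hν (S.Nh f) ≤ nm hν f := by
  have h2 := bound hν ((nm hν).comp S.Nh) 1 f (fun m _ => by
    rw [Seminorm.comp_apply, S.Nh_wd, one_mul]
    exact N_le hν S hr _)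
  rwa [Seminorm.comp_apply, one_mul] at h2

lemma J_mul_wd {f : FA ℂ L} (hf : f ∈ S.J) (g : FA ℂ L) : f * g ∈ S.J := by
  induction hf using Submodule.span_induction with
  | mem x hx =>
    obtain ⟨r, v, rfl⟩ := hx
    rw [mul_assoc]
    exact S.rel_mul_mem r _
  | zero => rw [zero_mul]; exact Submodule.zero_mem _
  | add a b _ _ ha hb => rw [add_mul]; exact Submodule.add_mem _ ha hb
  | smul c a _ ha =>
    rw [smul_eq_mul, mul_assoc]
    exact Submodule.smul_mem _ c ha

lemma smul_mem_J (c : ℂ) {f : FA ℂ L} (hf : f ∈ S.J) : c • f ∈ S.J := by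
  have : c • f = (algebraMap ℂ (FA ℂ L) c) • f := by rw [Algebra.smul_def, smul_eq_mul]
  rw [this]
  exact Submodule.smul_mem _ _ hf

lemma sub_mem_of_supp (f : FA ℂ L)
    (h : ∀ m ∈ f.coeff.support, wd (FreeMonoid.toList m) - S.N (FreeMonoid.toList m) ∈ S.J) :
    f - S.Nh f ∈ S.J := by
  have e : f - S.Nh f = ∑ m ∈ f.coeff.support, f.coeff m •
      ((wd (FreeMonoid.toList m) : FA ℂ L) - S.N (FreeMonoid.toList m)) := by
    simp only [smul_sub]
    rw [Finset.sum_sub_distrib, ← eq_sum f]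
    congr 1
  rw [e]
  exact Submodule.sum_mem _ fun m hm => smul_mem_J S _ (h m hm)

lemma wd_sub_N (w : List L) : (wd w - S.N w : FA ℂ L) ∈ S.J := by
  induction w using (lt_wf S.wt).induction with
  | _ w ih =>
    by_cases hocc : ∃ t, S.Occ w t
    · obtain ⟨t, ht, hN⟩ := S.N_red hocc
      rw [hN]
      have hsupp := Lo_supp (red_lo S ht)
      have h1 : (wd w - wd t.1 * (wd [S.x t.2.1, S.y t.2.1] - S.rel t.2.1) * wd t.2.2 : FA ℂ L) ∈
          S.J := by
        have hw : (wd w : FA ℂ L) = wd t.1 * wd [S.x t.2.1, S.y t.2.1] * wd t.2.2 := by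
          rw [wd_mul, wd_mul]
          exact congrArg wd ht
        have e : (wd w - wd t.1 * (wd [S.x t.2.1, S.y t.2.1] - S.rel t.2.1) * wd t.2.2 : FA ℂ L) =
            wd t.1 * (S.rel t.2.1 * wd t.2.2) := by
          rw [hw]; noncomm_ring
        rw [e]
        exact Submodule.smul_mem _ (wd t.1 : FA ℂ L) (S.rel_mul_mem _ _)
      generalize (wd t.1 * (wd [S.x t.2.1, S.y t.2.1] - S.rel t.2.1) * wd t.2.2 : FA ℂ L) = f
        at hsupp h1
      have h2 := sub_mem_of_supp S f fun m hm => ih _ (hsupp m (Finsupp.mem_support_iff.mp hm))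
      have e : (wd w - S.Nh f : FA ℂ L) = (wd w - f) + (f - S.Nh f) := by abel
      rw [e]
      exact Submodule.add_mem _ h1 h2
    · rw [S.N_irr hocc, sub_self]; exact Submodule.zero_mem _

lemma sub_Nh (f : FA ℂ L) : f - S.Nh f ∈ S.J := sub_mem_of_supp S f fun _ _ => wd_sub_N S _

lemma Nh_mul (hS : S.Res) (f g : FA ℂ L) : S.Nh (f * g) = S.Nh (S.Nh f * S.Nh g) := by
  rw [← sub_eq_zero, ← map_sub]
  apply S.Nh_J hS
  have e : f * g - S.Nh f * S.Nh g = (f - S.Nh f) * g + S.Nh f * (g - S.Nh g) := by noncomm_ring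
  rw [e]
  exact Submodule.add_mem _ (J_mul_wd S (sub_Nh S f) g) (Submodule.smul_mem _ _ (sub_Nh S g))

include hr in
/-- the norm of the normal form is submultiplicative -/
theorem nm_Nh_mul (hS : S.Res) (f g : FA ℂ L) :
    nm hν (S.Nh (f * g)) ≤ nm hν (S.Nh f) * nm hν (S.Nh g) := by
  rw [Nh_mul S hS]
  exact (Nh_le hν S hr _).trans (nm_mul hν _ _)

end system

end Pool.Agent.Q193.UH
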