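import Pool.Agent.Q193.UH.Hopf

/-!
# The enveloping algebra of the polynomial vector fields on the line

Every submultiplicative seminorm on it vanishes on the augmentation ideal.
-/

set_option autoImplicit false

open scoped TensorProduct

namespace Pool.Agent.Q193.UH

attribute [local instance 100] LieRing.ofAssociativeRing

open Polynomial

/-- the Lie algebra of polynomial vector fields on the affine line -/
abbrev G : Type := Derivation ℂ ℂ[X] ℂ[X]

/-- the vector field `X ^ n d/dX` -/
noncomputable def D (n : ℕ) : G := Polynomial.mkDerivation ℂ (X ^ n : ℂ[X])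

lemma D_X (n : ℕ) : D n X = X ^ n := by
  unfold D
  rw [Polynomial.mkDerivation_X]

lemma G_ext {d e : G} (h : d X = e X) : d = e := Polynomial.derivation_ext h

lemma D_pow (m n : ℕ) : D m (X ^ (n + 1)) = ((n : ℂ) + 1) • X ^ (n + m) := by
  rw [Derivation.leibniz_pow, D_X, Nat.add_sub_cancel]
  simp only [smul_eq_mul, nsmul_eq_mul, Polynomial.smul_eq_C_mul]
  push_cast
  simp only [map_add, map_natCast, map_one]
  ring

lemma D_one : D 0 (1 : ℂ[X]) = 0 := by
  rw [Derivation.map_one_eq_zero]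

/-- commutators with the Euler field -/
lemma lie_one (n : ℕ) : ⁅D 1, D (n + 1)⁆ = (n : ℂ) • D (n + 1) := by
  apply G_ext
  rw [Derivation.commutator_apply, D_X, D_X, D_pow, Derivation.smul_apply, D_X]
  have : D (n + 1) (X ^ 1 : ℂ[X]) = X ^ (n + 1) := by rw [pow_one, D_X]
  rw [this, ← one_smul ℂ (X ^ (n + 1) : ℂ[X]), smul_smul, smul_smul, ← sub_smul]
  congr 1
  ring

/-- commutators with `d/dX` -/
lemma lie_zero (n : ℕ) : ⁅D 0, D (n + 1)⁆ = ((n : ℂ) + 1) • D n := by
  apply G_ext
  rw [Derivation.commutator_apply, D_X, D_X, D_pow, Derivation.smul_apply, D_X, pow_zero,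
    Derivation.map_one_eq_zero, sub_zero, add_zero]

/-- commutators with `X^2 d/dX` -/
lemma lie_two (n : ℕ) : ⁅D 2, D (n + 1)⁆ = ((n : ℂ) - 1) • D (n + 2) := by
  apply G_ext
  rw [Derivation.commutator_apply, D_X, D_X, D_pow, Derivation.smul_apply, D_X]
  have : D (n + 1) (X ^ 2 : ℂ[X]) = (2 : ℂ) • X ^ (n + 2) := by
    have := D_pow (n + 1) 1
    rw [this]
    congr 1
    · norm_num
    · congr 1; ring
  rw [this, ← sub_smul]
  congr 1
  ring

lemma span_D (d : G) : d ∈ Submodule.span ℂ (Set.range D) := by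
  have h : d = ∑ n ∈ (d X).support, (d X).coeff n • D n := by
    apply G_ext
    have hs : (∑ n ∈ (d X).support, (d X).coeff n • D n : G) X =
        ∑ n ∈ (d X).support, ((d X).coeff n • D n : G) X := by
      have := congrFun (map_sum (Derivation.coeFnAddMonoidHom (R := ℂ) (A := ℂ[X]) (M := ℂ[X]))
        (fun n => (d X).coeff n • D n) (d X).support) X
      rw [Finset.sum_apply] at this
      exact this
    rw [hs]
    conv_lhs => rw [(d X).as_sum_support_C_mul_X_pow]
    refine Finset.sum_congr rfl fun n _ => ?_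
    rw [Derivation.smul_apply, D_X, Polynomial.smul_eq_C_mul]
  rw [h]
  exact Submodule.sum_mem _ fun n _ => Submodule.smul_mem _ _ (Submodule.subset_span ⟨n, rfl⟩)

/-- the generators of the enveloping algebra -/
noncomputable def x (n : ℕ) : U ℂ G := io ℂ G (D n)

lemma x_one (n : ℕ) : x 1 * x (n + 1) - x (n + 1) * x 1 = (n : ℂ) • x (n + 1) := by
  unfold x
  rw [← io_lie, lie_one, io_smul]

lemma x_zero (n : ℕ) : x 0 * x (n + 1) - x (n + 1) * x 0 = ((n : ℂ) + 1) • x n := by
  unfold x
  rw [← io_lie, lie_zero, io_smul]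

lemma x_two (n : ℕ) : x 2 * x (n + 1) - x (n + 1) * x 2 = ((n : ℂ) - 1) • x (n + 2) := by
  unfold x
  rw [← io_lie, lie_two, io_smul]

lemma io_mem {S : Subalgebra ℂ (U ℂ G)} (h : ∀ n, x n ∈ S) (d : G) : io ℂ G d ∈ S := by
  have hd := span_D d
  induction hd using Submodule.span_induction with
  | mem d hd => obtain ⟨n, rfl⟩ := hd; exact h n
  | zero =>
    have : io ℂ G 0 = 0 := map_zero (UniversalEnvelopingAlgebra.ι ℂ (L := G))
    rw [this]; exact S.zero_mem
  | add a b _ _ ha hb => rw [io_add]; exact S.add_mem ha hb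
  | smul r a _ ha => rw [io_smul]; exact S.smul_mem ha r

/-- the enveloping algebra is finitely generated -/
theorem finiteType : Algebra.FiniteType ℂ (U ℂ G) := by
  classical
  refine ⟨⟨{x 0, x 1, x 2, x 3}, ?_⟩⟩
  set S := Algebra.adjoin ℂ (({x 0, x 1, x 2, x 3} : Finset (U ℂ G)) : Set (U ℂ G)) with hS
  have h0 : x 0 ∈ S := Algebra.subset_adjoin (by simp)
  have h1 : x 1 ∈ S := Algebra.subset_adjoin (by simp)
  have h2 : x 2 ∈ S := Algebra.subset_adjoin (by simp)
  have h3 : x 3 ∈ S := Algebra.subset_adjoin (by simp)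
  have hn : ∀ n, x (n + 3) ∈ S := by
    intro n
    induction n with
    | zero => exact h3
    | succ n ih =>
      have h4 := x_two (n + 2)
      have h5 : (((n + 2 : ℕ) : ℂ) - 1) ≠ 0 := by
        push_cast
        have : (n : ℂ) + 2 - 1 = ((n + 1 : ℕ) : ℂ) := by push_cast; ring
        rw [this]
        exact_mod_cast Nat.succ_ne_zero n
      have h6 : x (n + 1 + 3) =
          (((n + 2 : ℕ) : ℂ) - 1)⁻¹ • (x 2 * x (n + 2 + 1) - x (n + 2 + 1) * x 2) := by
        rw [h4, smul_smul, inv_mul_cancel₀ h5, one_smul]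
      rw [h6]
      exact S.smul_mem (S.sub_mem (S.mul_mem h2 ih) (S.mul_mem ih h2)) _
  have hall : ∀ n, x n ∈ S := by
    intro n
    match n with
    | 0 => exact h0
    | 1 => exact h1
    | 2 => exact h2
    | n + 3 => exact hn n
  rw [eq_top_iff, ← adjoin_io ℂ G]
  apply Algebra.adjoin_le
  rintro _ ⟨d, rfl⟩
  exact io_mem hall d

section seminorm

variable (p : Seminorm ℂ (U ℂ G)) (hp : ∀ a b, p (a * b) ≤ p a * p b)

include hp

lemma comm_le (a b : U ℂ G) : p (a * b - b * a) ≤ 2 * p a * p b := by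
  calc p (a * b - b * a) ≤ p (a * b) + p (b * a) := map_sub_le_add p _ _
    _ ≤ p a * p b + p b * p a := add_le_add (hp a b) (hp b a)
    _ = 2 * p a * p b := by ring

lemma p_large {n : ℕ} (hn : 2 * p (x 1) < n) : p (x (n + 1)) = 0 := by
  have h := comm_le p hp (x 1) (x (n + 1))
  rw [x_one, map_smul_eq_mul, Complex.norm_natCast] at h
  have h0 : 0 ≤ p (x (n + 1)) := apply_nonneg p _
  by_contra hne
  have hpos : 0 < p (x (n + 1)) := lt_of_le_of_ne h0 (Ne.symm hne)
  have : (n : ℝ) ≤ 2 * p (x 1) := le_of_mul_le_mul_right h hpos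
  linarith

lemma p_down {n : ℕ} (hn : p (x (n + 1)) = 0) : p (x n) = 0 := by
  have h := comm_le p hp (x 0) (x (n + 1))
  rw [x_zero, map_smul_eq_mul, hn, mul_zero] at h
  have h0 : 0 ≤ p (x n) := apply_nonneg p _
  have h1 : 0 < ‖((n : ℂ) + 1)‖ := by
    rw [norm_pos_iff]
    exact_mod_cast Nat.succ_ne_zero n
  have h2 : ‖((n : ℂ) + 1)‖ * p (x n) = 0 := le_antisymm h (mul_nonneg h1.le h0)
  rcases mul_eq_zero.mp h2 with h3 | h3
  · exact absurd h3 h1.ne'
  · exact h3

lemma p_x (n : ℕ) : p (x n) = 0 := by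
  obtain ⟨N, hN⟩ := exists_nat_gt (2 * p (x 1))
  have hbig : ∀ m, N ≤ m → p (x (m + 1)) = 0 := by
    intro m hm
    apply p_large p hp
    have : (N : ℝ) ≤ m := by exact_mod_cast hm
    linarith
  have hdown : ∀ k, p (x (n + k)) = 0 → p (x n) = 0 := by
    intro k
    induction k with
    | zero => exact id
    | succ k ih => exact fun h => ih (p_down p hp h)
  exact hdown (N + 1) (by
    have := hbig (n + N) (Nat.le_add_left _ _)
    rw [← add_assoc]; exact this)

lemma p_io (d : G) : p (io ℂ G d) = 0 := by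
  have hd := span_D d
  induction hd using Submodule.span_induction with
  | mem d hd => obtain ⟨n, rfl⟩ := hd; exact p_x p hp n
  | zero =>
    have : io ℂ G 0 = 0 := map_zero (UniversalEnvelopingAlgebra.ι ℂ (L := G))
    rw [this]; exact map_zero p
  | add a b _ _ ha hb =>
    rw [io_add]
    have := map_add_le_add p (io ℂ G a) (io ℂ G b)
    rw [ha, hb, add_zero] at this
    exact le_antisymm this (apply_nonneg p _)
  | smul r a _ ha => rw [io_smul, map_smul_eq_mul, ha, mul_zero]

/-- every submultiplicative seminorm factors through the counit -/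
theorem p_counit (a : U ℂ G) :
    p (a - algebraMap ℂ _ (Coalgebra.counit (R := ℂ) a)) = 0 := by
  have ha : a ∈ Algebra.adjoin ℂ (Set.range (io ℂ G)) := by rw [adjoin_io]; trivial
  induction ha using Algebra.adjoin_induction with
  | mem a ha =>
    obtain ⟨d, rfl⟩ := ha
    rw [counit_eq, counitU_io, map_zero, sub_zero]
    exact p_io p hp d
  | algebraMap r => rw [Bialgebra.counit_algebraMap, sub_self]; exact map_zero p
  | add a b _ _ ha hb =>
    rw [map_add, map_add, add_sub_add_comm]
    refine le_antisymm ((map_add_le_add p _ _).trans ?_) (apply_nonneg p _)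
    rw [ha, hb, add_zero]
  | mul a b _ _ ha hb =>
    rw [Bialgebra.counit_mul, map_mul]
    have : a * b - algebraMap ℂ _ (Coalgebra.counit (R := ℂ) a) *
        algebraMap ℂ _ (Coalgebra.counit (R := ℂ) b) =
        (a - algebraMap ℂ _ (Coalgebra.counit (R := ℂ) a)) * b +
        algebraMap ℂ _ (Coalgebra.counit (R := ℂ) a) *
          (b - algebraMap ℂ _ (Coalgebra.counit (R := ℂ) b)) := by
      noncomm_ring
    rw [this]
    refine le_antisymm ((map_add_le_add p _ _).trans ?_) (apply_nonneg p _)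
    have h1 := hp (a - algebraMap ℂ _ (Coalgebra.counit (R := ℂ) a)) b
    have h2 := hp (algebraMap ℂ _ (Coalgebra.counit (R := ℂ) a))
      (b - algebraMap ℂ _ (Coalgebra.counit (R := ℂ) b))
    rw [ha, zero_mul] at h1
    rw [hb, mul_zero] at h2
    linarith

end seminorm

/-- the action on polynomials -/
noncomputable def act : U ℂ G →ₐ[ℂ] Module.End ℂ ℂ[X] :=
  UniversalEnvelopingAlgebra.lift ℂ
    { toFun := fun d : G => (d : ℂ[X] →ₗ[ℂ] ℂ[X])
      map_add' := fun _ _ => rfl
      map_smul' := fun _ _ => rfl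
      map_lie' := fun {_ _} => Derivation.commutator_coe_linear_map }

lemma act_x (n : ℕ) : act (x n) X = X ^ n := by
  have : act (x n) = ((D n : G) : ℂ[X] →ₗ[ℂ] ℂ[X]) :=
    UniversalEnvelopingAlgebra.lift_ι_apply ℂ _ (D n)
  rw [this]
  exact D_X n

lemma x_ne (n : ℕ) : x n ≠ 0 := by
  intro h
  have := act_x n
  rw [h, map_zero, LinearMap.zero_apply] at this
  exact pow_ne_zero n X_ne_zero this.symm

lemma counit_x (n : ℕ) : Coalgebra.counit (R := ℂ) (x n) = 0 := counitU_io ℂ G (D n)

end Pool.Agent.Q193.UH
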